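import Pool.Agent.H64.TD

namespace Pool.Agent.Results.MP_2c723a_al.UnequalDims

open Pool.Agent.H64.TDDefs Module

theorem result (K : Type) [Field K] [CharZero K] :
    ∃ (β γ γ' ϱ ϱ' : K) (n : ℕ) (ρ : TAlg β γ γ' ϱ ϱ' →ₐ[K] End K (Fin n → K)),
      IsIrreducible ρ ∧
      Diagonalizable (act ρ true) ∧ Diagonalizable (act ρ false) ∧
      ¬ IsTridiagonalPair (act ρ true) (act ρ false) ∧ HasUnequalEigenspaces (act ρ false) :=
  Pool.Agent.H64.TD.main K

end Pool.Agent.Results.MP_2c723a_al.UnequalDims
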